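import Mathlib

set_option autoImplicit false

namespace Pool.Agent.Results.MP_b67aea_co.AllGeFour

open Multiset

/-- The multiset of all products of `k` parts (index sets counted with multiplicity). -/
def pre (k : ℕ) (s : Multiset ℕ) : Multiset ℕ := (powersetCard k s).map Multiset.prod

lemma pc_filter {α : Type} (s : Multiset α) :
    ∀ k, powersetCard k s = (powerset s).filter (fun t => card t = k) := by
  induction s using Multiset.induction_on with
  | empty =>
    intro k
    rcases k with _ | k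
    · simp [filter_singleton]
    · simp [filter_singleton]
  | cons a s ih =>
    intro k
    rcases k with _ | k
    · rw [powerset_cons, filter_add, ← ih 0, filter_map]
      simp
    · rw [powersetCard_cons, powerset_cons, filter_add, ← ih (k + 1), filter_map, ih k]
      congr 2
      refine filter_congr fun t _ => ?_
      simp

lemma pc_compl {α : Type} [DecidableEq α] (s : Multiset α) (k : ℕ) (h : card s = 2 * k) :
    (powersetCard k s).map (fun t => s - t) = powersetCard k s := by
  have h1 : (powerset s).map (fun t => s - t) = powerset s := by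
    have := antidiagonal_map_fst s
    rw [antidiagonal_eq_map_powerset, map_map] at this
    exact this
  conv_rhs => rw [pc_filter, ← h1, filter_map]
  rw [pc_filter]
  congr 1
  refine filter_congr fun t ht => ?_
  have h2 := mem_powerset.1 ht
  have h3 := card_le_card h2
  simp only [Function.comp, card_sub h2]
  omega

lemma dual (S : Multiset (ℕ × ℕ)) (k c : ℕ) (hc : 0 < c) (h : card S = 2 * k)
    (hp : ∀ p ∈ S, p.1 * p.2 = c) (hprod : (S.map Prod.fst).prod = c ^ k) :
    pre k (S.map Prod.fst) = pre k (S.map Prod.snd) := by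
  unfold pre
  rw [powersetCard_map, powersetCard_map, map_map, map_map]
  conv_lhs => rw [← pc_compl S k h, map_map]
  refine map_congr rfl fun t ht => ?_
  obtain ⟨h1, h2⟩ := mem_powersetCard.1 ht
  simp only [Function.comp]
  have e1 : (t.map Prod.fst).prod * (t.map Prod.snd).prod = c ^ k := by
    rw [← prod_map_mul, map_congr rfl (fun p hp' => hp p (mem_of_le h1 hp')), map_const',
      prod_replicate, h2]
  have e2 : (t.map Prod.fst).prod * ((S - t).map Prod.fst).prod = c ^ k := by
    rw [← prod_add, ← map_add, add_comm, Multiset.sub_add_cancel h1, hprod]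
  have e3 : (t.map Prod.fst).prod ≠ 0 := by
    intro h0
    rw [h0, zero_mul] at e1
    exact (pow_pos hc k).ne e1
  exact mul_left_cancel₀ e3 (e2.trans e1.symm)

lemma no_sqrt3 (t u : ℕ) (hu : 0 < u) (h : t ^ 2 = 3 * u ^ 2) : False := by
  have ht : t ≠ 0 := by
    rintro rfl
    have := pow_pos hu 2
    omega
  have h1 := congrArg (fun x => x.factorization 3) h
  simp only [Nat.factorization_pow, Nat.factorization_mul (by norm_num : (3 : ℕ) ≠ 0)
    (pow_pos hu 2).ne', Finsupp.add_apply, Finsupp.smul_apply, smul_eq_mul,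
    Nat.Prime.factorization_self Nat.prime_three] at h1
  omega

/-- The list of dual pairs. -/
def pairs (t s m j e : ℕ) : Multiset (ℕ × ℕ) :=
  {(6 * t, 120 * (m * s)), (9 * t, 80 * (m * s)), (40 * t, 18 * (m * s)), (80 * t, 9 * (m * s)),
    (144 * (m * s), 5 * t), (45 * (m * s), 16 * t), (30 * (m * s), 24 * t), (8 * (m * s), 90 * t)}
  + replicate j (t, 720 * (m * s)) + replicate j (720 * (m * s), t)
  + replicate e (720 * m * t, s) + replicate e (s, 720 * m * t)

lemma build (t s m j e n : ℕ) (ht : 0 < t) (hs : 0 < s) (hm : 0 < m)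
    (hn : n = t * (135 + j + e * (720 * m)) + s * (m * (227 + j * 720) + e)) :
    ∃ a b : Nat.Partition n, a ≠ b ∧ card a.parts = 2 * (4 + j + e) ∧
      card b.parts = 2 * (4 + j + e) ∧ pre (4 + j + e) a.parts = pre (4 + j + e) b.parts := by
  have hms : 0 < m * s := Nat.mul_pos hm hs
  have hp : ∀ p ∈ pairs t s m j e, p.1 * p.2 = 720 * (m * s) * t := by
    intro p hp
    simp only [pairs, mem_add, insert_eq_cons, mem_cons, mem_singleton, mem_replicate] at hp
    rcases hp with ((((rfl | rfl | rfl | rfl | rfl | rfl | rfl | rfl) | ⟨-, rfl⟩) | ⟨-, rfl⟩) |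
      ⟨-, rfl⟩) | ⟨-, rfl⟩ <;> ring
  have hc : 0 < 720 * (m * s) * t := by positivity
  have hcard : card (pairs t s m j e) = 2 * (4 + j + e) := by
    simp [pairs]; ring
  have pos : ∀ p ∈ pairs t s m j e, 0 < p.1 ∧ 0 < p.2 := by
    intro p h
    have := hp p h
    constructor
    · exact Nat.pos_of_mul_pos_right (this ▸ hc)
    · exact Nat.pos_of_mul_pos_left (this ▸ hc)
  refine ⟨⟨(pairs t s m j e).map Prod.fst, ?_, ?_⟩, ⟨(pairs t s m j e).map Prod.snd, ?_, ?_⟩,
    ?_, ?_, ?_, ?_⟩
  · intro i hi
    obtain ⟨p, hp', rfl⟩ := mem_map.1 hi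
    exact (pos p hp').1
  · rw [hn]; simp [pairs]; ring
  · intro i hi
    obtain ⟨p, hp', rfl⟩ := mem_map.1 hi
    exact (pos p hp').2
  · rw [hn]; simp [pairs]; ring
  · intro h
    have h1 : (pairs t s m j e).map Prod.fst = (pairs t s m j e).map Prod.snd :=
      congrArg Nat.Partition.parts h
    have h2 := congrArg (fun x => (x.map (fun y => y ^ 2)).sum) h1
    simp only [pairs, Multiset.map_add, insert_eq_cons, map_cons, map_singleton, map_replicate,
      sum_add, sum_cons, sum_singleton, sum_replicate, smul_eq_mul] at h2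
    refine no_sqrt3 t (m * s) hms ?_
    nlinarith [h2]
  · simpa using hcard
  · simpa using hcard
  · refine dual _ _ _ hc hcard hp ?_
    simp only [pairs, Multiset.map_add, insert_eq_cons, map_cons, map_singleton, map_replicate,
      prod_add, prod_cons, prod_singleton, prod_replicate]
    have e1 : t ^ j * (720 * (m * s)) ^ j = (720 * (m * s) * t) ^ j := by
      rw [← mul_pow]; congr 1; ring
    have e2 : (720 * m * t) ^ e * s ^ e = (720 * (m * s) * t) ^ e := by
      rw [← mul_pow]; congr 1; ring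
    rw [pow_add, pow_add, ← e1, ← e2]; ring

lemma repr (A B : ℕ) (hA : 1 < A) (hB : 1 < B) (h : Nat.Coprime A B) :
    ∃ M, ∀ n, M ≤ n → ∃ t s, 0 < t ∧ 0 < s ∧ n = t * A + s * B := by
  have hf := frobeniusNumber_pair h hA hB
  refine ⟨A * B + 1, fun n hn => ?_⟩
  have h3 : A + B ≤ A * B := by nlinarith
  have h1 : n - A - B ∈ AddSubmonoid.closure ({A, B} : Set ℕ) := by
    by_contra hc
    have h2 : n - A - B ≤ A * B - A - B := hf.2 hc
    omega
  obtain ⟨a, b, hab⟩ := AddSubmonoid.mem_closure_pair _ _ _ |>.1 h1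
  refine ⟨a + 1, b + 1, by omega, by omega, ?_⟩
  simp only [smul_eq_mul] at hab
  have : (a + 1) * A + (b + 1) * B = a * A + b * B + A + B := by ring
  omega

theorem result : ∀ k : ℕ, 4 ≤ k → ∃ M : ℕ, ∀ n : ℕ, M ≤ n →
    ∃ a b : Nat.Partition n, a ≠ b ∧ k < card a.parts ∧ k < card b.parts ∧
      pre k a.parts = pre k b.parts := by
  intro k hk
  obtain ⟨m, j, e, hm, hk', hcop⟩ : ∃ m j e, 0 < m ∧ k = 4 + j + e ∧
      Nat.Coprime (135 + j + e * (720 * m)) (m * (227 + j * 720) + e) := by
    rcases Nat.lt_or_ge 4 k with h | h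
    · obtain ⟨j, rfl⟩ : ∃ j, k = 4 + j + 1 := ⟨k - 5, by omega⟩
      obtain ⟨m, hm⟩ : ∃ m, (135 + j) * (227 + j * 720) = m + 720 :=
        ⟨(135 + j) * (227 + j * 720) - 720, by
          have : 720 ≤ (135 + j) * (227 + j * 720) := by nlinarith
          omega⟩
      refine ⟨m, j, 1, by nlinarith, rfl, ?_⟩
      rw [Nat.coprime_iff_gcd_eq_one, ← Nat.dvd_one]
      set g := Nat.gcd (135 + j + 1 * (720 * m)) (m * (227 + j * 720) + 1)
      have h1 : g ∣ 135 + j + 1 * (720 * m) := Nat.gcd_dvd_left _ _
      have h2 : g ∣ m * (227 + j * 720) + 1 := Nat.gcd_dvd_right _ _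
      have h3 : g ∣ m := by
        have e1 : (227 + j * 720) * (135 + j + 1 * (720 * m)) =
            720 * (m * (227 + j * 720) + 1) + m := by nlinarith [hm]
        exact (Nat.dvd_add_right (h2.mul_left 720)).1 (e1 ▸ h1.mul_left _)
      exact (Nat.dvd_add_right (h3.mul_right _)).1 h2
    · exact ⟨1, 0, 0, one_pos, by omega, by norm_num⟩
  obtain ⟨M, hM⟩ := repr _ _ (by omega) (by nlinarith) hcop
  refine ⟨M, fun n hn => ?_⟩
  obtain ⟨t, s, ht, hs, h⟩ := hM n hn
  obtain ⟨a, b, h1, h2, h3, h4⟩ := build t s m j e n ht hs hm h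
  exact ⟨a, b, h1, by omega, by omega, hk' ▸ h4⟩

end Pool.Agent.Results.MP_b67aea_co.AllGeFour
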